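import Pool.Agent.H733Z.Nil3

/-!
A nontrapping metric on a closed ball of `ℝ^3` without strictly convex functions.

The metric is `dx^2 + dy^2 + dz^2 + ψ (dz + x dy - y dx)^2` with `ψ ≥ 0` vanishing near the boundary.
The Lie derivative of the metric along `(x, y, 2 z)` is positive definite, which bounds the time a
geodesic spends in the ball. The boundary of a solid torus in the ball is nowhere convex, so a
strictly convex function could not attain its maximum over that solid torus.
-/

set_option autoImplicit false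

namespace Pool.Agent.Results.MP_a29272_gt.ANontrapNoConvex

open Pool.Agent.H733Z.Nil

theorem result : ∃ (R : ℝ) (g : (Fin 3 → ℝ) → Matrix (Fin 3) (Fin 3) ℝ), 0 < R ∧ IsMetric g ∧
    (∃ r < R, ∀ x : Fin 3 → ℝ, r ^ 2 < ∑ i, x i ^ 2 → g x = 1) ∧
    ConvexBoundary g R ∧ BoundedExit g R ∧
    ¬ ∃ f : (Fin 3 → ℝ) → ℝ, ContDiffOn ℝ 2 f {x | ∑ i, x i ^ 2 < R ^ 2} ∧
      ∀ x v : Fin 3 → ℝ, ∑ i, x i ^ 2 < R ^ 2 → v ≠ 0 → 0 < hess g f x v :=
  main

end Pool.Agent.Results.MP_a29272_gt.ANontrapNoConvex
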